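import Pool.Agent.Lib.MP_b0e20b_ag_C.Defs

/-!
# MP_b0e20b_ag, project N: the generic number for binary tensors
-/

set_option autoImplicit false

open Finset

namespace Pool.Agent.MPb0eC

/-- The number of permutations by the sets of the points which are not fixed. -/
theorem sum_choose_der (m : ℕ) :
    ∑ j ∈ range (m + 1), m.choose j * numDerangements j = m.factorial := by
  induction m with
  | zero => simp
  | succ m ih =>
    have h0 : ∑ i ∈ range (m + 1 + 1), (-1 : ℤ) ^ i * ((m + 1).choose i : ℤ) = 0 := by
      rw [Int.alternating_sum_range_choose, if_neg (Nat.succ_ne_zero m)]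
    rw [sum_range_succ'] at h0
    have h1 : ((∑ j ∈ range (m + 1 + 1), (m + 1).choose j * numDerangements j : ℕ) : ℤ) =
        ((m + 1).factorial : ℤ) := by
      rw [sum_range_succ']
      push_cast
      have h2 : ∀ j ∈ range (m + 1), ((m + 1).choose (j + 1) : ℤ) *
          (numDerangements (j + 1) : ℤ) = ((m : ℤ) + 1) * ((m.choose j : ℤ) *
            (numDerangements j : ℤ)) + (-1 : ℤ) ^ (j + 1) * ((m + 1).choose (j + 1) : ℤ) := by
        intro j _
        have h3 : ((m : ℤ) + 1) * (m.choose j : ℤ) =
            ((m + 1).choose (j + 1) : ℤ) * ((j : ℤ) + 1) := by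
          exact_mod_cast Nat.add_one_mul_choose_eq m j
        rw [numDerangements_succ]
        rw [pow_succ]
        linear_combination (-(numDerangements j : ℤ)) * h3
      rw [sum_congr rfl h2, sum_add_distrib, ← mul_sum]
      have h4 : ((∑ j ∈ range (m + 1), m.choose j * numDerangements j : ℕ) : ℤ) =
          (m.factorial : ℤ) := by rw [ih]
      push_cast at h4
      rw [h4, Nat.factorial_succ]
      simp only [pow_zero, Nat.choose_zero_right, Nat.cast_one, mul_one, numDerangements_zero]
        at h0 ⊢
      push_cast
      linarith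
    exact_mod_cast h1

theorem sum_choose_der' (m : ℕ) :
    ∑ j ∈ range (m + 1), m.choose j * numDerangements (m - j) = m.factorial := by
  rw [← sum_choose_der m, ← sum_range_reflect (fun j => m.choose j * numDerangements j)]
  refine sum_congr rfl fun j hj => ?_
  have hj' : j ≤ m := Nat.lt_succ_iff.1 (mem_range.1 hj)
  have h1 : m + 1 - 1 - j = m - j := by omega
  rw [h1, Nat.choose_symm hj']

theorem sum_choose_mul_der (m : ℕ) :
    ∑ j ∈ range (m + 1 + 1), (m + 1).choose j * (j * numDerangements (m + 1 - j)) =
      (m + 1).factorial := by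
  rw [sum_range_succ']
  have h1 : ∀ j ∈ range (m + 1), (m + 1).choose (j + 1) * ((j + 1) *
      numDerangements (m + 1 - (j + 1))) = (m + 1) * (m.choose j * numDerangements (m - j)) := by
    intro j _
    have h2 : m + 1 - (j + 1) = m - j := by omega
    rw [h2, ← mul_assoc, ← mul_assoc, ← Nat.add_one_mul_choose_eq]
  rw [sum_congr rfl h1, ← mul_sum, sum_choose_der', Nat.factorial_succ]
  simp

theorem der_rec (m : ℕ) : ∑ j ∈ range (m + 1 + 1),
    (m + 1).choose j * ((j - 1) * numDerangements (m + 1 - j)) = numDerangements (m + 1) := by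
  have h1 := sum_choose_der' (m + 1)
  have h2 := sum_choose_mul_der m
  have h3 : ∑ j ∈ range (m + 1 + 1), (m + 1).choose j * (j * numDerangements (m + 1 - j)) +
      numDerangements (m + 1) = ∑ j ∈ range (m + 1 + 1),
        (m + 1).choose j * ((j - 1) * numDerangements (m + 1 - j)) +
      ∑ j ∈ range (m + 1 + 1), (m + 1).choose j * numDerangements (m + 1 - j) := by
    rw [← sum_add_distrib, sum_range_succ', sum_range_succ' _ (m + 1)]
    have h4 : ∀ j ∈ range (m + 1), (m + 1).choose (j + 1) * ((j + 1) *
        numDerangements (m + 1 - (j + 1))) = (m + 1).choose (j + 1) * ((j + 1 - 1) *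
        numDerangements (m + 1 - (j + 1))) + (m + 1).choose (j + 1) *
          numDerangements (m + 1 - (j + 1)) := by
      intro j _
      rw [Nat.add_sub_cancel]
      ring
    rw [sum_congr rfl h4]
    simp
  omega

variable {d : ℕ}

theorem ind_sub (S J : Finset (Fin d)) : ind S - ind J = ind (S \ J) := by
  funext i
  rw [Pi.sub_apply]
  unfold ind
  by_cases h1 : i ∈ S <;> by_cases h2 : i ∈ J <;> simp [h1, h2]

theorem one_le_ind {S J : Finset (Fin d)} : (∀ i ∈ J, 1 ≤ ind S i) ↔ J ⊆ S := by
  constructor
  · intro h i hi
    have h1 := h i hi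
    unfold ind at h1
    by_contra h2
    rw [if_neg h2] at h1
    omega
  · intro h i hi
    unfold ind
    rw [if_pos (h hi)]

/-- The value for a set of factors is the number of the derangements. -/
theorem Mac.ind {D : (Fin d → ℕ) → ℕ} (h : Mac D) (S : Finset (Fin d)) :
    D (ind S) = numDerangements S.card := by
  classical
  induction hc : S.card using Nat.strong_induction_on generalizing S with
  | _ m ih =>
    rcases m with _ | m
    · have h1 : S = ∅ := card_eq_zero.1 hc
      have h2 : MPb0eC.ind (d := d) ∅ = 0 := by
        funext i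
        simp [MPb0eC.ind]
      rw [h1, h2, h.zero, numDerangements_zero]
    · have h1 : MPb0eC.ind S ≠ 0 := by
        intro h2
        obtain ⟨i, hi⟩ : S.Nonempty := card_pos.1 (by omega)
        have h3 := congrFun h2 i
        unfold MPb0eC.ind at h3
        rw [if_pos hi] at h3
        exact one_ne_zero h3
      rw [h.step _ h1, ← der_rec, ← hc]
      have h4 := sum_powerset_apply_card
        (fun j => (j - 1) * numDerangements (S.card - j)) (x := S)
      simp only [smul_eq_mul] at h4
      rw [← h4, ← sum_subset (s₁ := univ.filter fun J : Finset (Fin d) =>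
        (∀ i ∈ J, 1 ≤ MPb0eC.ind S i) ∧ 2 ≤ J.card) (s₂ := S.powerset)]
      · refine sum_congr rfl fun J hJ => ?_
        obtain ⟨h5, h6⟩ := (mem_filter.1 hJ).2
        have h7 := one_le_ind.1 h5
        have h8 := card_sdiff_of_subset h7
        have h9 := card_le_card h7
        rw [ind_sub, ih (S \ J).card (by omega) (S \ J) rfl, h8]
      · intro J hJ
        exact mem_powerset.2 (one_le_ind.1 (mem_filter.1 hJ).2.1)
      · intro J hJ hJ'
        have h5 : ¬ 2 ≤ J.card := fun h6 => hJ' (mem_filter.2 ⟨mem_univ _,
          one_le_ind.2 (mem_powerset.1 hJ), h6⟩)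
        have h6 : J.card - 1 = 0 := by omega
        rw [h6, zero_mul]

/-- The sum over the box of a set of factors. -/
theorem Mac.ne_ind {D : (Fin d → ℕ) → ℕ} (h : Mac D) (S : Finset (Fin d)) :
    Ne D (MPb0eC.ind S) = S.card.factorial := by
  classical
  have h1 : box (MPb0eC.ind S) = S.powerset.image MPb0eC.ind := by
    ext a
    unfold box
    rw [Fintype.mem_piFinset, mem_image]
    constructor
    · intro ha
      refine ⟨univ.filter fun i => a i = 1, ?_, ?_⟩
      · rw [mem_powerset]
        intro i hi
        have h2 := mem_range.1 (ha i)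
        rw [(mem_filter.1 hi).2] at h2
        unfold MPb0eC.ind at h2
        by_contra h3
        rw [if_neg h3] at h2
        omega
      · funext i
        have h2 := mem_range.1 (ha i)
        unfold MPb0eC.ind at h2 ⊢
        simp only [mem_filter, mem_univ, true_and]
        split_ifs at h2 <;> split_ifs <;> omega
    · rintro ⟨T, hT, rfl⟩ i
      rw [mem_range]
      unfold MPb0eC.ind
      by_cases h2 : i ∈ T
      · rw [if_pos h2, if_pos (mem_powerset.1 hT h2)]
        omega
      · rw [if_neg h2]
        omega
  unfold Ne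
  rw [h1, sum_image]
  · rw [sum_congr rfl fun T _ => h.ind T, ← sum_choose_der]
    have h4 := sum_powerset_apply_card (fun j => numDerangements j) (x := S)
    simpa only [smul_eq_mul] using h4
  · intro T _ T' _ h2
    ext i
    have h3 := congrFun h2 i
    unfold MPb0eC.ind at h3
    by_cases h4 : i ∈ T <;> by_cases h5 : i ∈ T' <;> simp_all

/-- The generic number for the format (1, ..., 1). -/
theorem Mac.nn_one {D : (Fin d → ℕ) → ℕ} (h : Mac D) :
    NN D (fun _ => 1) = numDerangements d + ∑ i ∈ range d, d.factorial / i.factorial := by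
  classical
  have h1 : (fun _ => 1 : Fin d → ℕ) = MPb0eC.ind univ := by
    funext i
    simp [MPb0eC.ind]
  unfold NN
  rw [h1, h.ind, card_univ, Fintype.card_fin]
  congr 1
  have h2 : ∑ J ∈ univ.filter (fun J : Finset (Fin d) => (∀ i ∈ J, 1 ≤ MPb0eC.ind univ i) ∧
      J ≠ ∅), J.card * Ne D (MPb0eC.ind univ - MPb0eC.ind J) =
      ∑ J ∈ (univ : Finset (Fin d)).powerset, J.card * (d - J.card).factorial := by
    refine Eq.trans (sum_congr rfl fun J _ => ?_) (sum_subset ?_ ?_)
    · rw [ind_sub, h.ne_ind, card_sdiff_of_subset (subset_univ J), card_univ, Fintype.card_fin]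
    · intro J _
      exact mem_powerset.2 (subset_univ J)
    · intro J _ hJ
      have h5 : J = ∅ := by
        by_contra h6
        exact hJ (mem_filter.2 ⟨mem_univ _, one_le_ind.2 (subset_univ J), h6⟩)
      rw [h5, card_empty, zero_mul]
  rw [h2]
  have h3 := sum_powerset_apply_card (fun j => j * (d - j).factorial) (x := (univ : Finset (Fin d)))
  rw [h3, card_univ, Fintype.card_fin, sum_range_succ']
  simp only [smul_eq_mul, zero_mul, mul_zero, add_zero]
  refine sum_congr rfl fun i hi => ?_
  have hi' : i + 1 ≤ d := mem_range.1 hi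
  have h4 := Nat.choose_mul_factorial_mul_factorial hi'
  rw [Nat.factorial_succ] at h4
  have h5 : d.factorial = (d.choose (i + 1) * ((i + 1) * (d - (i + 1)).factorial)) *
      i.factorial := by
    rw [← h4]
    ring
  rw [h5, Nat.mul_div_cancel _ (Nat.factorial_pos i)]

end Pool.Agent.MPb0eC
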