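import Pool.Agent.Lib.MP_b0e20b_ag_G.Defs

/-!
# MP_b0e20b_ag, project N (the generic number): definitions
-/

set_option autoImplicit false

open scoped BigOperators

namespace Pool.Agent.MPb0eF

/-- The linearised system at the complex values `z` has only the zero solution. -/
def NDC {Ω Λ Ρ : Type} [Fintype Ω] [Fintype Λ] (vec : Ω → Ρ → ℤ) (ex : Ω → Λ → ℤ) (z : Ω → ℂ) :
    Prop :=
  ∀ η : Λ → ℂ, (∀ ρ, ∑ E, z E * (∑ l, (ex E l : ℂ) * η l) * (vec E ρ : ℂ) = 0) → η = 0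

end Pool.Agent.MPb0eF
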