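import Pool.Agent.Lib.MP_b0e20b_ag_G.Ad
import Pool.Agent.Lib.MP_b0e20b_ag_N.Defs

/-!
# MP_b0e20b_ag, project N: the linearised limit system, complex version
-/

set_option autoImplicit false

open scoped BigOperators Topology
open Filter

namespace Pool.Agent.MPb0eF

variable {Ω Λ Ρ : Type} [Fintype Ω] [Fintype Λ] [Fintype Ρ] {vec : Ω → Ρ → ℤ}
  {ex : Ω → Λ → ℤ} {lev : Ω → ℕ}

/-- The derivative of the limit system is injective (complex version of `lim_inj`). -/
theorem lim_injC {ζ : Ω → ℂ} {φ : Ρ → Ρ → ℚ} {j : Ρ → ℕ}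
    (h2 : ∀ (n : ℕ) (ψ : Ρ → ℚ), (∀ E, lev E < n → dot ψ (vec E) = 0) →
        ∃ c : Ρ → ℚ, (∀ i, c i ≠ 0 → n ≤ j i) ∧ ∀ ρ, ψ ρ = ∑ i, c i * φ i ρ)
    (h1 : ∀ i E, lev E < j i → dot (φ i) (vec E) = 0) (h0 : ∀ E, ζ E ≠ 0)
    (hU : Uq vec lev ζ) (hS : Sp ex lev) {η : Λ → ℂ}
    (hη : ∀ i, ∑ E, (if lev E = j i then
      ζ E * (∑ l, (ex E l : ℂ) * η l) * ((dot (φ i) (vec E) : ℚ) : ℂ) else 0) = 0) : η = 0 := by
  classical
  obtain ⟨α, hα⟩ : ∃ α : Ω → ℂ, ∀ E, α E = ∑ l, (ex E l : ℂ) * η l := ⟨_, fun _ => rfl⟩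
  simp_rw [← hα] at hη
  -- the relations
  have hR : ∀ n, InR vec lev n fun E => ζ E * α E := by
    intro n ψ hψ
    obtain ⟨c, hc, hc'⟩ := h2 n ψ hψ
    have h3 : ∀ E, dot ψ (vec E) = ∑ i, c i * dot (φ i) (vec E) := by
      intro E
      unfold dot
      simp_rw [Finset.mul_sum]
      rw [Finset.sum_comm]
      refine Finset.sum_congr rfl fun ρ _ => ?_
      rw [hc' ρ, Finset.sum_mul]
      exact Finset.sum_congr rfl fun i _ => by ring
    have h4 : ∑ E, (if lev E = n then (ζ E * α E) * ((dot ψ (vec E) : ℚ) : ℂ) else 0) =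
        ∑ i, (c i : ℂ) * ∑ E, (if lev E = n then
          (ζ E * α E) * ((dot (φ i) (vec E) : ℚ) : ℂ) else 0) := by
      simp_rw [Finset.mul_sum]
      rw [Finset.sum_comm]
      refine Finset.sum_congr rfl fun E _ => ?_
      by_cases hE : lev E = n
      · simp_rw [if_pos hE]
        rw [h3 E]
        push_cast
        rw [Finset.mul_sum]
        exact Finset.sum_congr rfl fun i _ => by ring
      · simp_rw [if_neg hE]
        simp
    rw [h4]
    refine Finset.sum_eq_zero fun i _ => ?_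
    by_cases hi : c i = 0
    · rw [hi]
      simp
    rcases (hc i hi).eq_or_lt with hji | hji
    · rw [hji, hη i, mul_zero]
    · rw [Finset.sum_eq_zero, mul_zero]
      intro E _
      by_cases hE : lev E = n
      · rw [if_pos hE, h1 i E (by omega)]
        simp
      · rw [if_neg hE]
  -- the limits depend only on the level
  have ht : ∀ n, ∃ t : ℂ, ∀ E, lev E = n → α E = t := by
    intro n
    obtain ⟨t, ht⟩ := hU n _ (hR n)
    refine ⟨t, fun E hE => ?_⟩
    have h3 := ht E hE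
    rw [mul_comm t] at h3
    exact mul_left_cancel₀ (h0 E) h3
  choose t ht using ht
  funext l
  obtain ⟨c, hc, hc'⟩ := hS fun l' => if l' = l then 1 else 0
  have h3 : ∑ E, (c E : ℂ) * α E = η l := by
    simp_rw [hα, Finset.mul_sum]
    rw [Finset.sum_comm]
    have h4 : ∀ l', ∑ E, (c E : ℂ) * ((ex E l' : ℂ) * η l') = if l' = l then η l' else 0 := by
      intro l'
      have h5 := congrArg (fun q : ℚ => (q : ℂ)) (hc' l')
      push_cast at h5
      have h6 : ∑ E, (c E : ℂ) * ((ex E l' : ℂ) * η l') =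
          (∑ E, (c E : ℂ) * (ex E l' : ℂ)) * η l' := by
        rw [Finset.sum_mul]
        exact Finset.sum_congr rfl fun E _ => by ring
      rw [h6, h5]
      split_ifs <;> simp
    rw [Finset.sum_congr rfl fun l' _ => h4 l']
    simp
  have h4 : ∑ E, (c E : ℂ) * α E = 0 := by
    have h5 : ∀ E ∈ (Finset.univ : Finset Ω), (c E : ℂ) * α E =
        ∑ n ∈ Finset.univ.image lev, t n * (if lev E = n then (c E : ℂ) else 0) := by
      intro E _
      rw [Finset.sum_eq_single (lev E)]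
      · rw [if_pos rfl, ht (lev E) E rfl, mul_comm]
      · intro n _ hn
        rw [if_neg hn.symm, mul_zero]
      · intro hE
        exact absurd (Finset.mem_image_of_mem lev (Finset.mem_univ E)) hE
    rw [Finset.sum_congr rfl h5, Finset.sum_comm]
    refine Finset.sum_eq_zero fun n _ => ?_
    rw [← Finset.mul_sum]
    have h6 := congrArg (fun q : ℚ => (q : ℂ)) (hc n)
    have h7 : ((∑ E, (if lev E = n then c E else 0) : ℚ) : ℂ) =
        ∑ E, (if lev E = n then (c E : ℂ) else 0) := by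
      rw [Rat.cast_sum]
      refine Finset.sum_congr rfl fun E _ => ?_
      split_ifs <;> simp
    rw [h7] at h6
    rw [h6]
    simp
  rw [h3] at h4
  rw [Pi.zero_apply]
  exact h4

end Pool.Agent.MPb0eF
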