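import Pool.Agent.Lib.MP_b0e20b_ag_N.CAd

/-!
# MP_b0e20b_ag, project N: existence of complex solutions
-/

set_option autoImplicit false

open scoped BigOperators Topology
open Filter

namespace Pool.Agent.MPb0eF

variable {Ω Λ Ρ : Type} [Fintype Ω] [Fintype Λ] [Fintype Ρ] {vec : Ω → Ρ → ℤ}
  {ex : Ω → Λ → ℤ} {h : Ω → ℝ} {k : Ω → ℝ} {w : Λ → ℝ} {lev : Ω → ℕ}

/-- The linear form of an exponent vector. -/
private noncomputable def exC_m (m : Λ → ℤ) : (Λ → ℂ) →L[ℂ] ℂ :=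
  ∑ l, (m l : ℂ) • ContinuousLinearMap.proj (R := ℂ) (φ := fun _ : Λ => ℂ) l

private theorem exC_m_apply (m : Λ → ℤ) (η : Λ → ℂ) : exC_m m η = ∑ l, (m l : ℂ) * η l := by
  rw [exC_m, _root_.sum_apply]
  rfl

/-- The strict derivative of a monomial at the point `1`. -/
private theorem exC_deriv (m : Λ → ℤ) :
    HasStrictFDerivAt (fun x : Λ → ℂ => ∏ l, (1 + x l) ^ m l) (exC_m m) 0 := by
  classical
  have h1 : ∀ l ∈ (Finset.univ : Finset Λ), HasStrictFDerivAt (fun x : Λ → ℂ => (1 + x l) ^ m l)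
      ((m l : ℂ) • (ContinuousLinearMap.proj (R := ℂ) (φ := fun _ : Λ => ℂ) l)) 0 := by
    intro l _
    have h2 : HasStrictFDerivAt (fun x : Λ → ℂ => 1 + x l)
        (ContinuousLinearMap.proj (R := ℂ) (φ := fun _ : Λ => ℂ) l) 0 :=
      (hasStrictFDerivAt_apply l (0 : Λ → ℂ)).const_add 1
    have h3 : HasStrictDerivAt (fun y : ℂ => y ^ m l) ((m l : ℂ) * 1 ^ (m l - 1))
        (1 + (0 : Λ → ℂ) l) := by
      have h4 := hasStrictDerivAt_zpow (m l) (1 : ℂ) (Or.inl one_ne_zero)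
      simpa using h4
    have h5 := h3.comp_hasStrictFDerivAt (0 : Λ → ℂ) h2
    simpa [Function.comp_def] using h5
  have h2 := HasStrictFDerivAt.finsetProd (u := (Finset.univ : Finset Λ)) h1
  have h3 : (∑ l, (∏ j ∈ Finset.univ.erase l, (1 + (0 : Λ → ℂ) j) ^ m j) • ((m l : ℂ) •
      (ContinuousLinearMap.proj (R := ℂ) (φ := fun _ : Λ => ℂ) l))) = exC_m m := by
    rw [exC_m]
    refine Finset.sum_congr rfl fun l _ => ?_
    simp
  rw [h3] at h2
  exact h2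

/-- The linear map with the coefficients `C`. -/
private noncomputable def exC_T [DecidableEq Ρ] (ex : Ω → Λ → ℤ) (C : Ρ → Ω → ℂ) :
    (Λ → ℂ) →L[ℂ] (Ρ → ℂ) :=
  ∑ i, ∑ E, C i E • (exC_m (ex E)).smulRight (Pi.single i (1 : ℂ))

private theorem exC_T_apply [DecidableEq Ρ] (C : Ρ → Ω → ℂ) (η : Λ → ℂ) (i : Ρ) :
    exC_T ex C η i = ∑ E, C i E * ∑ l, (ex E l : ℂ) * η l := by
  rw [exC_T]
  simp only [_root_.sum_apply, _root_.smul_apply,
    ContinuousLinearMap.smulRight_apply, Finset.sum_apply, Pi.smul_apply, smul_eq_mul,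
    exC_m_apply]
  rw [Finset.sum_eq_single i]
  · simp
  · intro j _ hj
    refine Finset.sum_eq_zero fun E _ => ?_
    rw [Pi.single_eq_of_ne (Ne.symm hj)]
    ring
  · intro h0
    exact absurd (Finset.mem_univ i) h0

private theorem exC_T_tendsto [DecidableEq Ρ] {C : ℝ → Ρ → Ω → ℂ} {C0 : Ρ → Ω → ℂ}
    (hC : ∀ i E, Tendsto (fun t => C t i E) atTop (𝓝 (C0 i E))) :
    Tendsto (fun t => exC_T ex (C t)) atTop (𝓝 (exC_T ex C0)) := by
  unfold exC_T
  exact tendsto_finsetSum _ fun i _ => tendsto_finsetSum _ fun E _ =>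
    (hC i E).smul_const _

private theorem exC_T_inj [DecidableEq Ρ] (hcard : Fintype.card Λ = Fintype.card Ρ)
    {C0 : Ρ → Ω → ℂ} (h0 : ∀ η : Λ → ℂ, exC_T ex C0 η = 0 → η = 0) :
    ∃ e : (Λ → ℂ) ≃L[ℂ] (Ρ → ℂ), (e : (Λ → ℂ) →L[ℂ] (Ρ → ℂ)) = exC_T ex C0 := by
  have hinj : Function.Injective ((exC_T ex C0 : (Λ → ℂ) →L[ℂ] (Ρ → ℂ)) :
      (Λ → ℂ) →ₗ[ℂ] (Ρ → ℂ)) := by
    rw [injective_iff_map_eq_zero]
    exact h0
  have hdim : Module.finrank ℂ (Λ → ℂ) = Module.finrank ℂ (Ρ → ℂ) := by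
    rw [Module.finrank_pi, Module.finrank_pi, hcard]
  refine ⟨(LinearEquiv.ofInjectiveOfFinrankEq _ hinj hdim).toContinuousLinearEquiv, ?_⟩
  ext η i
  rfl

/-- The map whose zeros are the solutions. -/
private noncomputable def exC_f (ex : Ω → Λ → ℤ) (A B : Ρ → Ω → ℂ)
    (u : (Ρ → Ω → ℂ) × (Λ → ℂ)) (i : Ρ) : ℂ :=
  ∑ E, (A i E + u.1 i E * B i E) * ∏ l, (1 + u.2 l) ^ ex E l

private theorem exC_f_deriv [DecidableEq Ρ] (A B : Ρ → Ω → ℂ) :
    ∃ f' : (Ρ → Ω → ℂ) × (Λ → ℂ) →L[ℂ] (Ρ → ℂ), HasStrictFDerivAt (exC_f ex A B) f' (0, 0) ∧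
      f' ∘L (.inr ℂ (Ρ → Ω → ℂ) (Λ → ℂ)) = exC_T ex A := by
  classical
  have h1 : ∀ (i : Ρ) (E : Ω), HasStrictFDerivAt
      (fun u : (Ρ → Ω → ℂ) × (Λ → ℂ) => A i E + u.1 i E * B i E)
      (B i E • ((ContinuousLinearMap.proj (R := ℂ) (φ := fun _ : Ω => ℂ) E) ∘L
        (ContinuousLinearMap.proj (R := ℂ) (φ := fun _ : Ρ => Ω → ℂ) i) ∘L
        (.fst ℂ (Ρ → Ω → ℂ) (Λ → ℂ)))) (0, 0) := by
    intro i E
    have h2 : HasStrictFDerivAt (fun u : (Ρ → Ω → ℂ) × (Λ → ℂ) => u.1 i E)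
        ((ContinuousLinearMap.proj (R := ℂ) (φ := fun _ : Ω => ℂ) E) ∘L
        (ContinuousLinearMap.proj (R := ℂ) (φ := fun _ : Ρ => Ω → ℂ) i) ∘L
        (.fst ℂ (Ρ → Ω → ℂ) (Λ → ℂ))) (0, 0) :=
      ContinuousLinearMap.hasStrictFDerivAt
        ((ContinuousLinearMap.proj (R := ℂ) (φ := fun _ : Ω => ℂ) E) ∘L
        (ContinuousLinearMap.proj (R := ℂ) (φ := fun _ : Ρ => Ω → ℂ) i) ∘L
        (.fst ℂ (Ρ → Ω → ℂ) (Λ → ℂ)))
    exact (h2.mul_const (B i E)).const_add (A i E)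
  have h3 : ∀ E : Ω, HasStrictFDerivAt
      (fun u : (Ρ → Ω → ℂ) × (Λ → ℂ) => ∏ l, (1 + u.2 l) ^ ex E l)
      ((exC_m (ex E)) ∘L (.snd ℂ (Ρ → Ω → ℂ) (Λ → ℂ))) (0, 0) := by
    intro E
    have h4 : HasStrictFDerivAt (fun x : Λ → ℂ => ∏ l, (1 + x l) ^ ex E l) (exC_m (ex E))
        (((0, 0) : (Ρ → Ω → ℂ) × (Λ → ℂ)).2) := exC_deriv (ex E)
    have h5 : HasStrictFDerivAt (fun u : (Ρ → Ω → ℂ) × (Λ → ℂ) => u.2)
      (.snd ℂ (Ρ → Ω → ℂ) (Λ → ℂ)) (0, 0) := hasStrictFDerivAt_snd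
    exact HasStrictFDerivAt.comp (g := fun x : Λ → ℂ => ∏ l, (1 + x l) ^ ex E l)
      (f := fun u : (Ρ → Ω → ℂ) × (Λ → ℂ) => u.2) (0, 0) h4 h5
  have h6 : ∀ i : Ρ, HasStrictFDerivAt (fun u => exC_f ex A B u i) _ (0, 0) := fun i =>
    HasStrictFDerivAt.fun_sum (u := (Finset.univ : Finset Ω)) fun E _ => (h1 i E).mul (h3 E)
  refine ⟨_, hasStrictFDerivAt_pi.2 h6, ?_⟩
  ext η i
  rw [exC_T_apply]
  simp [exC_m_apply]

/-- Properties of the leading coefficients. -/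
private theorem exC_b {ζ : Ω → ℂ} {b : Ω → ℂ} (hb : ∀ E, b E ≠ 0) (h0 : ∀ E, ζ E ≠ 0)
    (hR : ∀ j, InR vec lev j ζ) (hU : Uq vec lev ζ)
    (he : ∀ E E', lev E = lev E' → b E * ζ E' = b E' * ζ E) :
    (∀ j, InR vec lev j fun E => b E) ∧ Uq vec lev fun E => b E := by
  refine ⟨?_, ?_⟩
  · intro j φ hφ
    by_cases hj : ∃ E0, lev E0 = j
    · obtain ⟨E0, hE0⟩ := hj
      have h1 := hR j φ hφ
      have h2 : ∑ E, (if lev E = j then b E * ((dot φ (vec E) : ℚ) : ℂ) else 0) =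
          (b E0 / ζ E0) *
            ∑ E, (if lev E = j then ζ E * ((dot φ (vec E) : ℚ) : ℂ) else 0) := by
        rw [Finset.mul_sum]
        refine Finset.sum_congr rfl fun E _ => ?_
        by_cases hE : lev E = j
        · rw [if_pos hE, if_pos hE]
          have h3 := he E E0 (hE.trans hE0.symm)
          have h4 : b E = (b E0 / ζ E0) * ζ E := by
            rw [div_mul_eq_mul_div, eq_div_iff (h0 E0), h3]
          rw [h4, mul_assoc]
        · rw [if_neg hE, if_neg hE, mul_zero]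
      rw [h2, h1, mul_zero]
    · push Not at hj
      exact Finset.sum_eq_zero fun E _ => if_neg (hj E)
  · intro j c hc
    obtain ⟨t, ht⟩ := hU j c hc
    by_cases hj : ∃ E0, lev E0 = j
    · obtain ⟨E0, hE0⟩ := hj
      refine ⟨t * (ζ E0 / b E0), fun E hE => ?_⟩
      have h3 := he E E0 (hE.trans hE0.symm)
      have h5 : b E0 ≠ 0 := hb E0
      rw [ht E hE, mul_assoc]
      congr 1
      rw [div_mul_eq_mul_div, eq_div_iff h5, mul_comm (ζ E0), h3, mul_comm]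
    · push Not at hj
      exact ⟨0, fun E hE => absurd hE (hj E)⟩

/-- The powers of `t` in a monomial. -/
private theorem exC_mon {t : ℝ} (ht : 0 < t) (y ε : Λ → ℂ) (E : Ω) :
    (k E : ℂ) * ((t ^ h E : ℝ) : ℂ) * ∏ l, (y l * ((t ^ w l : ℝ) : ℂ) * (1 + ε l)) ^ ex E l =
      ((k E : ℂ) * ∏ l, y l ^ ex E l) * ((t ^ val h ex w E : ℝ) : ℂ) *
        ∏ l, (1 + ε l) ^ ex E l := by
  have h1 : ∏ l, (y l * ((t ^ w l : ℝ) : ℂ) * (1 + ε l)) ^ ex E l =
      (∏ l, y l ^ ex E l) * ((∏ l, t ^ ((ex E l : ℝ) * w l) : ℝ) : ℂ) *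
        ∏ l, (1 + ε l) ^ ex E l := by
    rw [Complex.ofReal_prod, ← Finset.prod_mul_distrib, ← Finset.prod_mul_distrib]
    refine Finset.prod_congr rfl fun l _ => ?_
    rw [mul_zpow, mul_zpow, mul_comm (ex E l : ℝ), Real.rpow_mul ht.le, Real.rpow_intCast,
      Complex.ofReal_zpow]
  have h2 : ∏ l, t ^ ((ex E l : ℝ) * w l) = t ^ (∑ l, (ex E l : ℝ) * w l) :=
    (Real.rpow_sum_of_pos ht _ _).symm
  rw [h1, h2, val, Real.rpow_add ht]
  push_cast
  ring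

/-- Complex solutions near a leading point. Proof: put `y' l = y l * t ^ w l * (1 + ε l)`. The
equation of the basis form `φ i`, divided by `t ^ val` of the level `j i`, is
`∑ E, (if lev E = j i then b E * ∏ l, (1 + ε l) ^ ex E l * dot (φ i) (vec E)) + ∑ E, δ i E * ..`,
the second sum over `lev E > j i`, with `b E = k E * ∏ l, y l ^ ex E l` (a multiple of `ζ E` on
every level) and `δ i E = t ^ (val E - val of the level j i)`, which tends to zero. The map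
sending `δ, ε` to `δ` and the equations is strictly differentiable at zero with an invertible
derivative (`lim_inj` and `card Λ = card Ρ`; if the level `j i` is empty the equation of `φ i`
would be trivial at `δ = 0`: this is excluded by injectivity), so by the inverse function theorem
there are solutions `ε` for all small `δ`, with `ε → 0`. The derivative stays injective near zero:
`ND`. -/
theorem exiC (hk : ∀ E, k E ≠ 0) (hcard : Fintype.card Λ = Fintype.card Ρ)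
    (hspan : ∀ φ : Ρ → ℚ, (∀ E, dot φ (vec E) = 0) → φ = 0) {y : Λ → ℂ}
    (hy : FD vec ex h k w y) :
    ∃ y' : ℝ → Λ → ℂ,
      (∀ l, Tendsto (fun t => y' t l / (y l * ((t ^ w l : ℝ) : ℂ))) atTop (𝓝 1)) ∧
      ∀ᶠ t in atTop, (∀ ρ, ∑ E, (k E : ℂ) * ((t ^ h E : ℝ) : ℂ) * (∏ l, y' t l ^ ex E l) *
        (vec E ρ : ℂ) = 0) ∧
        NDC vec ex fun E => (k E : ℂ) * ((t ^ h E : ℝ) : ℂ) * ∏ l, y' t l ^ ex E l := by
  classical
  obtain ⟨hy0, lev, ζ, hL, h0, hR, hU, hS, he⟩ := hy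
  have hyl : ∀ l, y l ≠ 0 := hy0
  obtain ⟨b, hb⟩ : ∃ b : Ω → ℂ, ∀ E, b E = (k E : ℂ) * ∏ l, y l ^ ex E l := ⟨_, fun _ => rfl⟩
  have hbne : ∀ E, b E ≠ 0 := fun E => by
    rw [hb]
    exact mul_ne_zero (Complex.ofReal_ne_zero.2 (hk E))
      (Finset.prod_ne_zero_iff.2 fun l _ => zpow_ne_zero _ (hyl l))
  have he' : ∀ E E', lev E = lev E' → b E * ζ E' = b E' * ζ E := by
    intro E E' hE
    have h3 := he E E' hE
    rw [hb, hb]
    exact h3
  obtain ⟨hRb, hUb⟩ := exC_b hbne h0 hR hU he'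
  obtain ⟨φ, j, h1, -, h2⟩ := exists_adapted vec lev hspan
  obtain ⟨D, hD⟩ : ∃ D : Ρ → Ω → ℂ, ∀ i E, D i E = ((dot (φ i) (vec E) : ℚ) : ℂ) :=
    ⟨_, fun _ _ => rfl⟩
  obtain ⟨A, hA⟩ : ∃ A : Ρ → Ω → ℂ, ∀ i E, A i E = if lev E = j i then b E * D i E else 0 :=
    ⟨_, fun _ _ => rfl⟩
  obtain ⟨B, hB⟩ : ∃ B : Ρ → Ω → ℂ, ∀ i E, B i E = if j i < lev E then b E * D i E else 0 :=
    ⟨_, fun _ _ => rfl⟩
  have hinj : ∀ η : Λ → ℂ, exC_T ex A η = 0 → η = 0 := by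
    intro η hη
    refine lim_injC h2 h1 hbne hUb hS fun i => ?_
    have h3 := congrFun hη i
    rw [exC_T_apply, Pi.zero_apply] at h3
    refine Eq.trans (Finset.sum_congr rfl fun E _ => ?_) h3
    rw [hA, hD]
    by_cases hE : lev E = j i
    · rw [if_pos hE, if_pos hE]
      ring
    · rw [if_neg hE, if_neg hE, zero_mul]
  obtain ⟨e, hee⟩ := exC_T_inj hcard hinj
  have hne : ∀ i, ∃ E, lev E = j i := by
    intro i
    by_contra hcon
    push Not at hcon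
    have h3 : e (e.symm (Pi.single i 1)) i = 1 := by
      rw [e.apply_symm_apply, Pi.single_eq_same]
    have h4 : e (e.symm (Pi.single i 1)) i = exC_T ex A (e.symm (Pi.single i 1)) i := by
      rw [← hee]
      rfl
    rw [h4, exC_T_apply, Finset.sum_eq_zero fun E _ => ?_] at h3
    · exact zero_ne_one h3
    · rw [hA, if_neg (hcon E), zero_mul]
  choose E0 hE0 using hne
  obtain ⟨f', hf', hf2⟩ := exC_f_deriv (ex := ex) A B
  have hinv : (f' ∘L (.inr ℂ (Ρ → Ω → ℂ) (Λ → ℂ))).IsInvertible := ⟨e, by rw [hf2, hee]⟩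
  obtain ⟨ψ, hψ0, hψ1⟩ : ∃ ψ : (Ρ → Ω → ℂ) → Λ → ℂ, Tendsto ψ (𝓝 0) (𝓝 0) ∧
      ∀ᶠ x in 𝓝 0, exC_f ex A B (x, ψ x) = exC_f ex A B (0, 0) :=
    ⟨_, hf'.tendsto_implicitFunctionOfProdDomain hinv,
      hf'.eventually_apply_implicitFunctionOfProdDomain hinv⟩
  have hf0 : exC_f ex A B (0, 0) = 0 := by
    funext i
    have h3 := hRb (j i) (φ i) (h1 i)
    have h5 : ∑ E, A i E = 0 := by
      rw [← h3]
      refine Finset.sum_congr rfl fun E _ => ?_
      rw [hA, hD]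
    rw [Pi.zero_apply, ← h5, exC_f]
    refine Finset.sum_congr rfl fun E _ => ?_
    simp
  obtain ⟨δ, hδd⟩ : ∃ δ : ℝ → Ρ → Ω → ℂ, ∀ t i E, δ t i E =
      if j i < lev E then ((t ^ (val h ex w E - val h ex w (E0 i)) : ℝ) : ℂ) else 0 :=
    ⟨_, fun _ _ _ => rfl⟩
  have hδE : ∀ i E, Tendsto (fun t => δ t i E) atTop (𝓝 0) := by
    intro i E
    by_cases hlt : j i < lev E
    · have h3 : val h ex w E < val h ex w (E0 i) := hL.2 (E0 i) E (by rw [hE0 i]; exact hlt)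
      have h4 := (Complex.continuous_ofReal.tendsto 0).comp
        (tendsto_rpow_neg_atTop (sub_pos.2 h3))
      rw [Complex.ofReal_zero] at h4
      refine h4.congr fun t => ?_
      rw [hδd, if_pos hlt, Function.comp_apply, neg_sub]
    · refine tendsto_const_nhds.congr fun t => ?_
      rw [hδd, if_neg hlt]
  have hδ : Tendsto δ atTop (𝓝 0) := by
    rw [tendsto_pi_nhds]
    intro i
    rw [tendsto_pi_nhds]
    intro E
    exact hδE i E
  obtain ⟨ε, hεd⟩ : ∃ ε : ℝ → Λ → ℂ, ∀ t, ε t = ψ (δ t) := ⟨_, fun _ => rfl⟩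
  have hε : Tendsto ε atTop (𝓝 0) := (hψ0.comp hδ).congr fun t => (hεd t).symm
  have hεl : ∀ l, Tendsto (fun t => ε t l) atTop (𝓝 0) := fun l => (tendsto_pi_nhds.1 hε) l
  have hf : ∀ᶠ t in atTop, exC_f ex A B (δ t, ε t) = 0 := by
    filter_upwards [hδ.eventually hψ1] with t ht
    rw [hεd, ht, hf0]
  obtain ⟨C, hCd⟩ : ∃ C : ℝ → Ρ → Ω → ℂ, ∀ t i E, C t i E =
      (A i E + δ t i E * B i E) * ∏ l, (1 + ε t l) ^ ex E l := ⟨_, fun _ _ _ => rfl⟩
  have hC : ∀ i E, Tendsto (fun t => C t i E) atTop (𝓝 (A i E)) := by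
    intro i E
    have h3 : Tendsto (fun t => ∏ l, (1 + ε t l) ^ ex E l) atTop (𝓝 1) := by
      have h4 := tendsto_finsetProd (Finset.univ : Finset Λ) fun l _ =>
        ((hεl l).const_add 1).zpow₀ (ex E l) (Or.inl (by simp))
      simpa using h4
    have h6 := (((hδE i E).mul_const (B i E)).const_add (A i E)).mul h3
    rw [zero_mul, add_zero, mul_one] at h6
    exact h6.congr fun t => (hCd t i E).symm
  have hT : ∀ᶠ t in atTop, exC_T ex (C t) ∈
      Set.range ((↑) : ((Λ → ℂ) ≃L[ℂ] (Ρ → ℂ)) → (Λ → ℂ) →L[ℂ] (Ρ → ℂ)) := by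
    have h3 := exC_T_tendsto (ex := ex) hC
    rw [← hee] at h3
    exact h3 (ContinuousLinearEquiv.nhds e)
  have hsw : ∀ (G : Ω → ℂ) (i : Ρ),
      ∑ ρ, (φ i ρ : ℂ) * ∑ E, G E * (vec E ρ : ℂ) = ∑ E, G E * D i E := by
    intro G i
    simp_rw [Finset.mul_sum]
    rw [Finset.sum_comm]
    refine Finset.sum_congr rfl fun E _ => ?_
    rw [hD, dot]
    push_cast
    rw [Finset.mul_sum]
    refine Finset.sum_congr rfl fun ρ _ => ?_
    ring
  have hcomb : ∀ r : Ρ → ℂ, (∀ i, ∑ ρ, (φ i ρ : ℂ) * r ρ = 0) → ∀ ρ, r ρ = 0 := by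
    intro r hr ρ
    obtain ⟨c, -, hc⟩ := h2 0 (fun ρ' => if ρ' = ρ then 1 else 0)
      (fun E hE => absurd hE (Nat.not_lt_zero _))
    have h3 : r ρ = ∑ ρ', (((if ρ' = ρ then 1 else 0 : ℚ)) : ℂ) * r ρ' := by
      rw [Finset.sum_eq_single ρ]
      · simp
      · intro ρ' _ hρ
        rw [if_neg hρ]
        simp
      · intro h4
        exact absurd (Finset.mem_univ ρ) h4
    rw [h3]
    have h5 : ∀ ρ', (((if ρ' = ρ then 1 else 0 : ℚ)) : ℂ) * r ρ' =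
        ∑ i, (c i : ℂ) * ((φ i ρ' : ℂ) * r ρ') := by
      intro ρ'
      have h6 : (if ρ' = ρ then 1 else 0 : ℚ) = ∑ i, c i * φ i ρ' := hc ρ'
      rw [h6]
      push_cast
      rw [Finset.sum_mul]
      refine Finset.sum_congr rfl fun i _ => ?_
      ring
    simp_rw [h5]
    rw [Finset.sum_comm]
    refine Finset.sum_eq_zero fun i _ => ?_
    rw [← Finset.mul_sum, hr i, mul_zero]
  refine ⟨fun t l => y l * ((t ^ w l : ℝ) : ℂ) * (1 + ε t l), ?_, ?_⟩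
  · intro l
    have h3 := (hεl l).const_add 1
    rw [add_zero] at h3
    refine h3.congr' ?_
    filter_upwards [eventually_gt_atTop (0 : ℝ)] with t ht
    have h4 : y l * ((t ^ w l : ℝ) : ℂ) ≠ 0 :=
      mul_ne_zero (hyl l) (Complex.ofReal_ne_zero.2 (Real.rpow_pos_of_pos ht _).ne')
    rw [mul_div_cancel_left₀ _ h4]
  · filter_upwards [eventually_gt_atTop (0 : ℝ), hf, hT] with t ht hft hTt
    have key : ∀ (g : Ω → ℂ) (i : Ρ), ∑ E, ((k E : ℂ) * ((t ^ h E : ℝ) : ℂ) *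
        ∏ l, (y l * ((t ^ w l : ℝ) : ℂ) * (1 + ε t l)) ^ ex E l) * g E * D i E =
        ((t ^ val h ex w (E0 i) : ℝ) : ℂ) * ∑ E, C t i E * g E := by
      intro g i
      rw [Finset.mul_sum]
      refine Finset.sum_congr rfl fun E _ => ?_
      rw [exC_mon ht, ← hb, hCd, hA, hB, hδd]
      rcases lt_trichotomy (lev E) (j i) with hE | hE | hE
      · rw [if_neg hE.ne, if_neg hE.not_gt, if_neg hE.not_gt, hD, h1 i E hE]
        push_cast
        ring
      · rw [if_pos hE, if_neg hE.not_gt, if_neg hE.not_gt,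
          hL.1 E (E0 i) (hE.trans (hE0 i).symm)]
        ring
      · rw [if_neg hE.ne', if_pos hE, if_pos hE, Real.rpow_sub ht]
        have h3 : ((t ^ val h ex w (E0 i) : ℝ) : ℂ) ≠ 0 :=
          Complex.ofReal_ne_zero.2 (Real.rpow_pos_of_pos ht _).ne'
        rw [Complex.ofReal_div]
        field_simp
        ring
    refine ⟨?_, ?_⟩
    · intro ρ
      refine hcomb (fun ρ => ∑ E, (k E : ℂ) * ((t ^ h E : ℝ) : ℂ) *
        (∏ l, (y l * ((t ^ w l : ℝ) : ℂ) * (1 + ε t l)) ^ ex E l) * (vec E ρ : ℂ))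
        (fun i => ?_) ρ
      rw [hsw]
      have h3 := key (fun _ => 1) i
      simp only [mul_one] at h3
      rw [h3]
      have h4 := congrFun hft i
      rw [exC_f, Pi.zero_apply] at h4
      have h5 : ∑ E, C t i E = 0 := by
        rw [← h4]
        exact Finset.sum_congr rfl fun E _ => hCd t i E
      rw [h5, mul_zero]
    · intro η hη
      obtain ⟨e', he''⟩ := hTt
      have h3 : exC_T ex (C t) η = 0 := by
        funext i
        rw [exC_T_apply, Pi.zero_apply]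
        have h4 := key (fun E => ∑ l, (ex E l : ℂ) * η l) i
        rw [← hsw] at h4
        have h5 : ∑ ρ, (φ i ρ : ℂ) * ∑ E, ((k E : ℂ) * ((t ^ h E : ℝ) : ℂ) *
            ∏ l, (y l * ((t ^ w l : ℝ) : ℂ) * (1 + ε t l)) ^ ex E l) *
            (∑ l, (ex E l : ℂ) * η l) * (vec E ρ : ℂ) = 0 := by
          refine Finset.sum_eq_zero fun ρ _ => ?_
          rw [hη ρ, mul_zero]
        rw [h5] at h4
        rcases mul_eq_zero.1 h4.symm with h6 | h6
        · exact absurd h6 (Complex.ofReal_ne_zero.2 (Real.rpow_pos_of_pos ht _).ne')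
        · exact h6
      rw [← he''] at h3
      exact e'.map_eq_zero_iff.1 h3

end Pool.Agent.MPb0eF
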