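import Pool.Agent.Lib.MP_b0e20b_ag_Q.K0

/-!
# MP_b0e20b_ag, project N: nondegenerate complex solutions persist
-/

set_option autoImplicit false

open scoped BigOperators Topology
open MvPolynomial

namespace Pool.Agent.MPb0eF

open MPb0eQ (Sct dS sq PA G Hv contDiff_G bij_iff)

variable {κ : Type} [Fintype κ] [DecidableEq κ] {d : ℕ} (bl : κ → Fin d)

/-- A parameter has at most `N` nondegenerate complex solutions, where `N` is the generic number of
solutions. Proof. `Pool.Agent.MPb0eP.persist` with disjoint neighbourhoods, `dense_ne`. -/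
theorem lowerC (P : MvPolynomial (Sct bl) ℂ) (hP : P ≠ 0) {N : ℕ}
    (hN : ∀ c : Sct bl → ℂ, eval c P ≠ 0 → {x | G bl c x = 0}.encard = N)
    (c : Sct bl → ℂ) (S : Finset (κ → ℂ))
    (hS : ∀ x ∈ S, G bl c x = 0 ∧ ∀ v, Hv bl c x v = 0 → v = 0) : S.card ≤ N := by
  classical
  have hG1 : ContDiff ℂ 1 (fun w : (Sct bl → ℂ) × (κ → ℂ) => G bl w.1 w.2) := by
    exact_mod_cast contDiff_G bl (𝕜 := ℂ) 1
  obtain ⟨V, hV, hVd⟩ := S.finite_toSet.t2_separation
  have hper : ∀ x ∈ S, ∃ U ∈ 𝓝 x, U ⊆ V x ∧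
      ∀ᶠ p in 𝓝 c, ∃! u, u ∈ U ∧ G bl p u = 0 := fun x hx =>
    Pool.Agent.MPb0eP.persist (G bl) hG1 c x (hS x hx).1 ((bij_iff bl c x).2 (hS x hx).2) (V x)
      ((hV x).2.mem_nhds (hV x).1)
  choose! U hU using hper
  have hall : ∀ᶠ p in 𝓝 c, ∀ x ∈ S, ∃! u, u ∈ U x ∧ G bl p u = 0 :=
    (Filter.eventually_all_finset S).2 fun x hx => (hU x hx).2.2
  obtain ⟨c', hc', h2⟩ := Pool.Agent.MPb0eP.dense_ne P hP c _ hall
  have hc2 : ∀ x ∈ S, ∃! u, u ∈ U x ∧ G bl c' u = 0 := hc'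
  have hle : (S.card : ℕ∞) ≤ {x | G bl c' x = 0}.encard := by
    choose! f hf using fun x hx => (hc2 x hx).exists
    have hinj : Set.InjOn f (S : Set (κ → ℂ)) := by
      intro x hx y hy hxy
      by_contra hne
      have h3 : f x ∈ V x := (hU x hx).2.1 (hf x hx).1
      have h4 : f x ∈ V y := by
        rw [hxy]
        exact (hU y hy).2.1 (hf y hy).1
      exact Set.disjoint_left.1 (hVd hx hy hne) h3 h4
    have h5 : (S.card : ℕ∞) = (f '' (S : Set (κ → ℂ))).encard := by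
      rw [hinj.encard_image, Set.encard_coe_eq_coe_finsetCard]
    rw [h5]
    refine Set.encard_le_encard ?_
    rintro _ ⟨x, hx, rfl⟩
    exact (hf x hx).2
  rw [hN c' h2] at hle
  exact_mod_cast hle

end Pool.Agent.MPb0eF
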