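import Pool.Agent.Lib.MP_b0e20b_ag_N.CExi
import Pool.Agent.Lib.MP_b0e20b_ag_N.CSy

/-!
# MP_b0e20b_ag, project N: many complex solutions
-/

set_option autoImplicit false

open scoped BigOperators Topology
open Filter

namespace Pool.Agent.MPb0eF

open MPb0eQ (Sct dS sq PA G Hv)

variable {κ : Type} [Fintype κ] [DecidableEq κ] {d : ℕ} {bl : κ → Fin d}

private theorem RmC_lim {f : ℝ → ℂ} {a : ℂ} {u : ℝ} (ha : a ≠ 0)
    (hf : Tendsto (fun t => f t / (a * ((t ^ u : ℝ) : ℂ))) atTop (𝓝 1)) :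
    Tendsto (fun t => f t / ((t ^ u : ℝ) : ℂ)) atTop (𝓝 a) := by
  have h1 := hf.const_mul a
  rw [mul_one] at h1
  refine h1.congr fun t => ?_
  rw [mul_div_assoc', mul_div_mul_left _ _ ha]

private theorem RmC_lt {f g : ℝ → ℂ} {a b : ℂ} {u v : ℝ} (hb : b ≠ 0)
    (hf : Tendsto (fun t => f t / ((t ^ u : ℝ) : ℂ)) atTop (𝓝 a))
    (hg : Tendsto (fun t => g t / ((t ^ v : ℝ) : ℂ)) atTop (𝓝 b)) (h : u < v) :
    ∀ᶠ t in atTop, f t ≠ g t := by
  have h1 : Tendsto (fun t : ℝ => ((t ^ (-(v - u)) : ℝ) : ℂ)) atTop (𝓝 0) := by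
    have h0 := (Complex.continuous_ofReal.tendsto 0).comp
      (tendsto_rpow_neg_atTop (y := v - u) (by linarith))
    rw [Complex.ofReal_zero] at h0
    exact h0
  have h2 := (hf.mul h1).sub hg
  rw [mul_zero, zero_sub] at h2
  filter_upwards [h2.eventually_ne (neg_ne_zero.2 hb), eventually_gt_atTop 0] with t h3 h4 h5
  apply h3
  have h6 : ((t ^ (-(v - u)) : ℝ) : ℂ) = ((t ^ u : ℝ) : ℂ) / ((t ^ v : ℝ) : ℂ) := by
    rw [neg_sub, Real.rpow_sub h4, Complex.ofReal_div]
  have h7 : ((t ^ u : ℝ) : ℂ) ≠ 0 := Complex.ofReal_ne_zero.2 (Real.rpow_pos_of_pos h4 u).ne'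
  have h8 : ((t ^ v : ℝ) : ℂ) ≠ 0 := Complex.ofReal_ne_zero.2 (Real.rpow_pos_of_pos h4 v).ne'
  rw [h5, h6]
  field_simp
  ring

/-- Functions with different leading terms are different. -/
private theorem RmC_sep {f g : ℝ → ℂ} {a b : ℂ} {u v : ℝ} (ha : a ≠ 0) (hb : b ≠ 0)
    (hf : Tendsto (fun t => f t / (a * ((t ^ u : ℝ) : ℂ))) atTop (𝓝 1))
    (hg : Tendsto (fun t => g t / (b * ((t ^ v : ℝ) : ℂ))) atTop (𝓝 1))
    (h : ¬ (u = v ∧ a = b)) : ∀ᶠ t in atTop, f t ≠ g t := by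
  have hf' := RmC_lim ha hf
  have hg' := RmC_lim hb hg
  rcases lt_trichotomy u v with h1 | h1 | h1
  · exact RmC_lt hb hf' hg' h1
  · subst h1
    have h2 : a - b ≠ 0 := fun h3 => h ⟨rfl, sub_eq_zero.1 h3⟩
    filter_upwards [(hf'.sub hg').eventually_ne h2] with t h3 h4
    apply h3
    rw [h4, sub_self]
  · filter_upwards [RmC_lt ha hg' hf' h1] with t h2 h3
    exact h2 h3.symm

private theorem RmC_span (φ : Un κ d → ℚ) (h : ∀ E, dot φ (vF bl E) = 0) : φ = 0 := by
  have h1 : ∀ i, φ (.inr i) = 0 := by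
    intro i
    have h2 := h (.inr (.inr (.inl i)))
    unfold dot at h2
    rw [Fintype.sum_sum_type] at h2
    have h3 : ∑ k : κ, φ (.inl k) * ((vF bl (.inr (.inr (.inl i))) (.inl k) : ℤ) : ℚ) = 0 := by
      refine Finset.sum_eq_zero fun k _ => ?_
      change φ (.inl k) * ((0 : ℤ) : ℚ) = 0
      rw [Int.cast_zero, mul_zero]
    rw [h3, zero_add, Finset.sum_eq_single i] at h2
    · have h4 : vF bl (.inr (.inr (.inl i))) (.inr i) = 1 := if_pos rfl
      rw [h4, Int.cast_one, mul_one] at h2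
      exact h2
    · intro j _ hj
      have h4 : vF bl (.inr (.inr (.inl i))) (.inr j) = 0 := if_neg hj
      rw [h4, Int.cast_zero, mul_zero]
    · intro h4
      exact absurd (Finset.mem_univ i) h4
  funext l
  rcases l with k | i
  · have h2 := h (.inr (.inl k))
    unfold dot at h2
    rw [Fintype.sum_sum_type] at h2
    have h3 : ∑ i : Fin d, φ (.inr i) * ((vF bl (.inr (.inl k)) (.inr i) : ℤ) : ℚ) = 0 := by
      refine Finset.sum_eq_zero fun i _ => ?_
      rw [h1 i, zero_mul]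
    rw [h3, add_zero, Finset.sum_eq_single k] at h2
    · have h4 : vF bl (.inr (.inl k)) (.inl k) = -1 := if_pos rfl
      rw [h4] at h2
      push_cast at h2
      change φ (.inl k) = 0
      linarith
    · intro j _ hj
      have h4 : vF bl (.inr (.inl k)) (.inl j) = 0 := if_neg hj
      rw [h4, Int.cast_zero, mul_zero]
    · intro h4
      exact absurd (Finset.mem_univ k) h4
  · exact h1 i

/-- Many complex nondegenerate solutions. Proof: `exi` for every element of `F` (with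
`k E = kF bl sg E`, which has the value one outside of the monomials), `G_of_relC` and `Hv_of_NDC`
with `c S = sg S * t ^ h S` (zero for the empty set). For large `t` the points are different: for
different `w` the quotient of some coordinate tends to zero or infinity, for equal `w` it tends
to a number different from one. (The coordinates `.inr i` are determined by the others, so the
points `x` are different as well.) -/
theorem cx_many {h sg : NS bl → ℝ} (s0 : ∀ S, sg S ≠ 0)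
    (F : Finset ((Un κ d → ℝ) × (Un κ d → ℂ)))
    (hF' : ∀ p ∈ F, FD (vF bl) (eF bl) (hF bl h) (kF bl sg) p.1 p.2) :
    ∃ (c : Sct bl → ℂ) (S : Finset (κ → ℂ)), S.card = F.card ∧
      ∀ x ∈ S, G bl c x = 0 ∧ ∀ v, Hv bl c x v = 0 → v = 0 := by
  classical
  have hk : ∀ E, kF bl sg E ≠ 0 := by
    intro E
    rcases E with S | E
    · exact s0 S
    · exact one_ne_zero
  choose y' hy1 hy2 using fun p : F => exiC hk rfl RmC_span (hF' p.1 p.2)
  have hy0 : ∀ (p : F) (l), p.1.2 l ≠ 0 := fun p l => (hF' p.1 p.2).1 l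
  -- the eventual properties
  have e1 : ∀ᶠ t in atTop, ∀ p : F, ∀ l, y' p t l ≠ 0 := by
    rw [eventually_all]
    intro p
    rw [eventually_all]
    intro l
    filter_upwards [(hy1 p l).eventually_ne one_ne_zero] with t h1 h2
    apply h1
    rw [h2, zero_div]
  have e2 : ∀ᶠ t in atTop, ∀ p : F,
      (∀ ρ, ∑ E, (kF bl sg E : ℂ) * ((t ^ hF bl h E : ℝ) : ℂ) * (∏ l, y' p t l ^ eF bl E l)
        * (vF bl E ρ : ℂ) = 0) ∧
      NDC (vF bl) (eF bl) fun E => (kF bl sg E : ℂ) * ((t ^ hF bl h E : ℝ) : ℂ) *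
        ∏ l, y' p t l ^ eF bl E l := by
    rw [eventually_all]
    exact fun p => hy2 p
  have e3 : ∀ᶠ t in atTop, ∀ p q : F, p ≠ q → y' p t ≠ y' q t := by
    rw [eventually_all]
    intro p
    rw [eventually_all]
    intro q
    by_cases hpq : p = q
    · exact Filter.Eventually.of_forall fun t h1 => absurd hpq h1
    · have h1 : ∃ l, ¬ (p.1.1 l = q.1.1 l ∧ p.1.2 l = q.1.2 l) := by
        by_contra h2
        push Not at h2
        apply hpq
        apply Subtype.ext
        exact Prod.ext (funext fun l => (h2 l).1) (funext fun l => (h2 l).2)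
      obtain ⟨l, hl⟩ := h1
      filter_upwards [RmC_sep (hy0 p l) (hy0 q l) (hy1 p l) (hy1 q l) hl] with t h2 _ h3
      exact h2 (congrFun h3 l)
  obtain ⟨t, h1, h2, h3⟩ := (e1.and (e2.and e3)).exists
  obtain ⟨c, hc⟩ : ∃ c : Sct bl → ℂ, ∀ E, cFc c E =
      (kF bl sg E : ℂ) * ((t ^ hF bl h E : ℝ) : ℂ) := by
    refine ⟨fun s => if hs : s.1.Nonempty then (sg ⟨s, hs⟩ : ℂ) * ((t ^ h ⟨s, hs⟩ : ℝ) : ℂ)
      else 0, fun E => ?_⟩
    rcases E with S | E
    · change (if hs : S.1.1.Nonempty then (sg ⟨S.1, hs⟩ : ℂ) * ((t ^ h ⟨S.1, hs⟩ : ℝ) : ℂ)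
        else 0) = (sg S : ℂ) * ((t ^ h S : ℝ) : ℂ)
      rw [dif_pos S.2]
    · change (1 : ℂ) = ((1 : ℝ) : ℂ) * ((t ^ (0 : ℝ) : ℝ) : ℂ)
      rw [Real.rpow_zero, Complex.ofReal_one, one_mul]
  have hrel : ∀ p : F, ∀ ρ, ∑ E, cFc c E * (∏ l, y' p t l ^ eF bl E l) *
      (vF bl E ρ : ℂ) = 0 := by
    intro p ρ
    simp only [hc]
    exact (h2 p).1 ρ
  have hND : ∀ p : F, NDC (vF bl) (eF bl) fun E => cFc c E * ∏ l, y' p t l ^ eF bl E l := by
    intro p
    simp only [hc]
    exact (h2 p).2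
  refine ⟨c, F.attach.image fun p => fun k => y' p t (.inl k), ?_, ?_⟩
  · rw [Finset.card_image_of_injective, Finset.card_attach]
    intro p q hpq
    by_contra hne
    apply h3 p q hne
    funext l
    rcases l with k | i
    · exact congrFun hpq k
    · rw [← (G_of_relC (h1 p) (hrel p)).2 i, ← (G_of_relC (h1 q) (hrel q)).2 i]
      change sq bl (fun k => y' p t (.inl k)) i = sq bl (fun k => y' q t (.inl k)) i
      have h4 : (fun k => y' p t (.inl k)) = fun k => y' q t (.inl k) := hpq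
      rw [h4]
  · intro x hx
    obtain ⟨p, _, rfl⟩ := Finset.mem_image.1 hx
    exact ⟨(G_of_relC (h1 p) (hrel p)).1, fun v hv => Hv_of_NDC (h1 p) (hrel p) (hND p) v hv⟩

end Pool.Agent.MPb0eF
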