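import Pool.Agent.Lib.MP_b0e20b_ag_G.Defs

/-!
# MP_b0e20b_ag, project N: the complex leading points
-/

set_option autoImplicit false

open scoped BigOperators Topology

namespace Pool.Agent.MPb0eF

variable {Ω Λ Ρ : Type} [Fintype Ω] [Fintype Λ] [Fintype Ρ] [DecidableEq Λ] {vec : Ω → Ρ → ℤ}
  {ex : Ω → Λ → ℤ} {h : Ω → ℝ} {k : Ω → ℝ} {w : Λ → ℝ} {mo : Ω → Bool}

private theorem TlC_lsum {Ω R : Type} [Fintype Ω] [CommRing R] {lev : Ω → ℕ} {c : Ω → ℤ}
    (hc : BSum lev c) {f : Ω → R} (hf : ∀ E E', lev E = lev E' → f E = f E') :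
    ∑ E, (c E : R) * f E = 0 := by
  classical
  rw [← Finset.sum_fiberwise_of_maps_to (t := Finset.univ.image lev)
    (fun E _ => Finset.mem_image_of_mem lev (Finset.mem_univ E)) (fun E => (c E : R) * f E)]
  refine Finset.sum_eq_zero fun j hj => ?_
  obtain ⟨E₀, -, hE₀⟩ := Finset.mem_image.1 hj
  have h1 : ∀ E ∈ Finset.univ.filter (fun E => lev E = j), (c E : R) * f E = (c E : R) * f E₀ := by
    intro E hE
    rw [hf E E₀ ((Finset.mem_filter.1 hE).2.trans hE₀.symm)]
  rw [Finset.sum_congr rfl h1, ← Finset.sum_mul, ← Int.cast_sum, Finset.sum_filter, hc j,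
    Int.cast_zero, zero_mul]

omit [Fintype Ρ] [DecidableEq Λ] in
private theorem TlC_zero {lev : Ω → ℕ} (hg : Gen h ex) (hl : Lev h ex w lev) {c : Ω → ℤ}
    (hc : BSum lev c) (he : ∀ l, ∑ E, c E * ex E l = 0) : c = 0 := by
  refine hg c ?_ he ?_
  · have h1 := TlC_lsum (R := ℤ) hc (f := fun _ => 1) fun _ _ _ => rfl
    simpa using h1
  · have h1 := TlC_lsum (R := ℝ) hc (f := val h ex w) hl.1
    have h2 : ∑ E, (c E : ℝ) * val h ex w E = ∑ E, (c E : ℝ) * h E +
        ∑ l, ((∑ E, c E * ex E l : ℤ) : ℝ) * w l := by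
      unfold val
      simp only [mul_add, Finset.sum_add_distrib]
      congr 1
      simp only [Finset.mul_sum]
      rw [Finset.sum_comm]
      refine Finset.sum_congr rfl fun l _ => ?_
      push_cast
      rw [Finset.sum_mul]
      exact Finset.sum_congr rfl fun E _ => by ring
    rw [h2] at h1
    simpa [he] using h1

private theorem TlC_zsum {ι R : Type} [Field R] (s : Finset ι) {a : R} (ha : a ≠ 0) (c : ι → ℤ) :
    ∏ i ∈ s, a ^ c i = a ^ (∑ i ∈ s, c i) := by
  classical
  induction s using Finset.induction_on with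
  | empty => simp
  | insert i s hi ih =>
    rw [Finset.prod_insert hi, Finset.sum_insert hi, ih, zpow_add₀ ha]

/-- The complex leading point with the coordinate `t` at `l0`. -/
private theorem TlC_sol {k' : Ω → ℝ} (hk : ∀ E, k' E ≠ 0) (hg : Gen h ex) {lev : Ω → ℕ}
    {ζ : Ω → ℂ} {l0 : Λ} {m : ℕ} (hl : Lev h ex w lev) (h0 : ∀ E, ζ E ≠ 0)
    (hR : ∀ j, InR vec lev j ζ) (hU : Uq vec lev ζ) (hS : Sp ex lev) (hC : Cyc ex lev mo l0 m)
    {c0 : Ω → ℤ} (hc0 : BSum lev c0)
    (he0 : ∀ l, ∑ E, c0 E * ex E l = if l = l0 then (m : ℤ) else 0) {t : ℂ}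
    (ht : t ^ m = ∏ E, (ζ E / (k' E : ℂ)) ^ c0 E) :
    ∃ y : Λ → ℂ, y l0 = t ∧ FD vec ex h k' w y := by
  classical
  have hk' : ∀ E, (k' E : ℂ) ≠ 0 := fun E => Complex.ofReal_ne_zero.2 (hk E)
  obtain ⟨ρ, hρ⟩ : ∃ ρ : Ω → ℂ, ρ = fun E => ζ E / (k' E : ℂ) := ⟨_, rfl⟩
  have hρ0 : ∀ E, ρ E ≠ 0 := fun E => by
    rw [hρ]
    exact div_ne_zero (h0 E) (hk' E)
  have ht' : t ^ m = ∏ E, ρ E ^ c0 E := by
    rw [ht, hρ]
  have hm := hC.pos
  have t0 : t ≠ 0 := by
    rintro rfl
    rw [zero_pow (by omega)] at ht'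
    exact (Finset.prod_ne_zero_iff.2 fun E _ => zpow_ne_zero _ (hρ0 E)) ht'.symm
  have hex : ∀ l, ∃ (a : ℤ) (c : Ω → ℤ), BSum lev c ∧ (∀ l', ∑ E, c E * ex E l' =
      (if l' = l then 1 else 0) - a * if l' = l0 then 1 else 0) ∧ (l = l0 → a = 1 ∧ c = 0) := by
    intro l
    by_cases h1 : l = l0
    · subst h1
      refine ⟨1, 0, fun j => by simp, fun l' => by simp, fun _ => ⟨rfl, rfl⟩⟩
    · obtain ⟨a, c, h2, h3⟩ := hC.gen l
      exact ⟨a, c, h2, h3, fun h4 => absurd h4 h1⟩
  choose a c hb he hac using hex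
  obtain ⟨y, hy⟩ : ∃ y : Λ → ℂ, y = fun l => (∏ E, ρ E ^ c l E) * t ^ a l := ⟨_, rfl⟩
  have hy0 : ∀ l, y l ≠ 0 := fun l => by
    rw [hy]
    exact mul_ne_zero (Finset.prod_ne_zero_iff.2 fun E _ => zpow_ne_zero _ (hρ0 E))
      (zpow_ne_zero _ t0)
  obtain ⟨f, hf1, hf2⟩ := hC.inv
  -- the divisibility
  have hdiv : ∀ e : Ω → ℤ, BSum lev e → (m : ℤ) ∣ ∑ l, (∑ E, e E * ex E l) * f l := by
    intro e hb'
    have h1 := TlC_lsum (R := ZMod m) hb' (f := fun E => ((∑ l, ex E l * f l : ℤ) : ZMod m))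
      fun E E' hE => by
        have h2 := hf2 E E' hE
        rw [← ZMod.intCast_zmod_eq_zero_iff_dvd] at h2
        have h3 : ∑ l, (ex E l - ex E' l) * f l = ∑ l, ex E l * f l - ∑ l, ex E' l * f l := by
          rw [← Finset.sum_sub_distrib]
          exact Finset.sum_congr rfl fun l _ => by ring
        rw [h3, Int.cast_sub] at h2
        exact sub_eq_zero.1 h2
    rw [← ZMod.intCast_zmod_eq_zero_iff_dvd, ← h1]
    have h2 : ∑ l, (∑ E, e E * ex E l) * f l = ∑ E, e E * ∑ l, ex E l * f l := by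
      simp only [Finset.sum_mul, Finset.mul_sum]
      rw [Finset.sum_comm]
      exact Finset.sum_congr rfl fun E _ => Finset.sum_congr rfl fun l _ => by ring
    rw [h2]
    push_cast
    rfl
  -- the values on the lattice
  have key : ∀ e : Ω → ℤ, BSum lev e →
      ∏ l, y l ^ (∑ E, e E * ex E l) = ∏ E, ρ E ^ e E := by
    intro e hb'
    obtain ⟨v, hv⟩ : ∃ v : Λ → ℤ, v = fun l => ∑ E, e E * ex E l := ⟨_, rfl⟩
    obtain ⟨e', he'⟩ : ∃ e' : Ω → ℤ, e' = fun E => e E - ∑ l, v l * c l E := ⟨_, rfl⟩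
    have hb1 : BSum lev e' := by
      intro j
      have h1 : ∀ E, (if lev E = j then e' E else 0) = (if lev E = j then e E else 0) -
          ∑ l, v l * (if lev E = j then c l E else 0) := by
        intro E
        split_ifs
        · rw [he']
        · simp
      rw [Finset.sum_congr rfl fun E _ => h1 E, Finset.sum_sub_distrib, hb' j,
        Finset.sum_comm]
      simp only [← Finset.mul_sum, hb _ j, mul_zero, Finset.sum_const_zero, sub_zero]
    have hx1 : ∀ l', ∑ E, e' E * ex E l' = (∑ l, a l * v l) * if l' = l0 then 1 else 0 := by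
      intro l'
      have h1 : ∑ E, e' E * ex E l' = v l' - ∑ l, v l * ∑ E, c l E * ex E l' := by
        have h5 : v l' = ∑ E, e E * ex E l' := by rw [hv]
        rw [he', h5]
        simp only [sub_mul, Finset.sum_sub_distrib, Finset.sum_mul, Finset.mul_sum]
        congr 1
        rw [Finset.sum_comm]
        exact Finset.sum_congr rfl fun l _ => Finset.sum_congr rfl fun E _ => by ring
      rw [h1]
      simp only [he, mul_sub, Finset.sum_sub_distrib]
      have h2 : ∑ l, v l * (if l' = l then (1 : ℤ) else 0) = v l' := by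
        simp
      rw [h2, Finset.sum_mul, sub_sub_cancel]
      exact Finset.sum_congr rfl fun l _ => by ring
    have hA : (m : ℤ) ∣ ∑ l, a l * v l := by
      have h1 := hdiv e' hb1
      simp only [hx1] at h1
      have h2 : ∑ l', (∑ l, a l * v l) * (if l' = l0 then (1 : ℤ) else 0) * f l' =
          ∑ l, a l * v l := by
        rw [Finset.sum_eq_single l0]
        · rw [if_pos rfl, hf1, mul_one, mul_one]
        · intro b _ hb2
          rw [if_neg hb2, mul_zero, zero_mul]
        · intro hn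
          exact absurd (Finset.mem_univ _) hn
      rwa [h2] at h1
    obtain ⟨q, hq⟩ := hA
    have hz : (fun E => e' E - q * c0 E) = 0 := by
      refine TlC_zero hg hl (fun j => ?_) fun l' => ?_
      · have h1 : ∀ E, (if lev E = j then e' E - q * c0 E else 0) =
            (if lev E = j then e' E else 0) - q * (if lev E = j then c0 E else 0) := by
          intro E
          split_ifs
          · rfl
          · simp
        rw [Finset.sum_congr rfl fun E _ => h1 E, Finset.sum_sub_distrib, hb1 j,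
          ← Finset.mul_sum, hc0 j, mul_zero, sub_zero]
      · have h1 : ∑ E, (e' E - q * c0 E) * ex E l' = ∑ E, e' E * ex E l' -
            q * ∑ E, c0 E * ex E l' := by
          rw [Finset.mul_sum, ← Finset.sum_sub_distrib]
          exact Finset.sum_congr rfl fun E _ => by ring
        rw [h1, hx1, he0, hq]
        split_ifs
        · ring
        · ring
    have hee : ∀ E, e E = ∑ l, v l * c l E + q * c0 E := by
      intro E
      have h1 := congrFun hz E
      simp only [he', Pi.zero_apply] at h1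
      linarith
    have h1 : ∏ l, y l ^ (∑ E, e E * ex E l) =
        (∏ E, ρ E ^ (∑ l, v l * c l E)) * t ^ (∑ l, a l * v l) := by
      have h2 : ∀ l, y l ^ (∑ E, e E * ex E l) =
          (∏ E, ρ E ^ (v l * c l E)) * t ^ (a l * v l) := by
        intro l
        have h3 : ∑ E, e E * ex E l = v l := by rw [hv]
        rw [h3, hy, mul_zpow, ← zpow_mul, ← Finset.prod_zpow]
        congr 1
        refine Finset.prod_congr rfl fun E _ => ?_
        rw [← zpow_mul, mul_comm]
      rw [Finset.prod_congr rfl fun l _ => h2 l, Finset.prod_mul_distrib, TlC_zsum _ t0,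
        Finset.prod_comm]
      congr 1
      exact Finset.prod_congr rfl fun E _ => TlC_zsum _ (hρ0 E) _
    rw [h1, hq, zpow_mul, zpow_natCast, ht', ← Finset.prod_zpow, ← Finset.prod_mul_distrib]
    refine Finset.prod_congr rfl fun E _ => ?_
    rw [hee E, zpow_add₀ (hρ0 E), ← zpow_mul, mul_comm q]
  refine ⟨y, ?_, hy0, lev, ζ, hl, h0, hR, hU, hS,
    fun E E' hE => ?_⟩
  · obtain ⟨h1, h2⟩ := hac l0 rfl
    rw [hy]
    simp [h1, h2]
  · obtain ⟨e, he1⟩ : ∃ e : Ω → ℤ, e = fun F => (if F = E then 1 else 0) -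
        if F = E' then 1 else 0 := ⟨_, rfl⟩
    have hb1 : BSum lev e := by
      intro j
      have h1 : ∀ F, (if lev F = j then e F else 0) =
          (if F = E then (if lev E = j then 1 else 0) else 0) -
            if F = E' then (if lev E' = j then (1 : ℤ) else 0) else 0 := by
        intro F
        rw [he1]
        by_cases hF : F = E <;> by_cases hF' : F = E' <;> by_cases hj : lev F = j <;>
          simp_all
      rw [Finset.sum_congr rfl fun F _ => h1 F, Finset.sum_sub_distrib, Finset.sum_ite_eq',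
        Finset.sum_ite_eq', if_pos (Finset.mem_univ _), if_pos (Finset.mem_univ _), hE, sub_self]
    have h1 := key e hb1
    have h2 : ∀ l, ∑ F, e F * ex F l = ex E l - ex E' l := by
      intro l
      rw [he1]
      simp [sub_mul, Finset.sum_sub_distrib]
    have h3 : ∏ F, ρ F ^ e F = ρ E / ρ E' := by
      have h4 : ∀ F, ρ F ^ e F = (if F = E then ρ E else 1) * (if F = E' then (ρ E')⁻¹ else 1) := by
        intro F
        rw [he1]
        by_cases hF : F = E <;> by_cases hF' : F = E'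
        · subst hF
          subst hF'
          simp [hρ0 F]
        · subst hF
          simp [hF']
        · subst hF'
          simp [hF]
        · simp [hF, hF']
      rw [Finset.prod_congr rfl fun F _ => h4 F, Finset.prod_mul_distrib, Finset.prod_ite_eq',
        Finset.prod_ite_eq', if_pos (Finset.mem_univ _), if_pos (Finset.mem_univ _), div_eq_mul_inv]
    have h4 : ∏ l, y l ^ ex E l = (ρ E / ρ E') * ∏ l, y l ^ ex E' l := by
      rw [← h3, ← h1, ← Finset.prod_mul_distrib]
      refine Finset.prod_congr rfl fun l _ => ?_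
      rw [h2, ← zpow_add₀ (hy0 l), sub_add_cancel]
    rw [h4, hρ]
    have := hk' E
    have := hk' E'
    have := h0 E
    have := h0 E'
    field_simp

/-- There are `m` complex leading points for every vector of growth exponents of type `m`. -/
theorem cx_pts (hk : ∀ E, k E ≠ 0) (hg : Gen h ex) {m : ℕ} (hT : Ty vec ex h mo w m) :
    ∃ Y : Finset (Λ → ℂ), Y.card = m ∧ ∀ y ∈ Y, FD vec ex h k w y := by
  classical
  obtain ⟨lev, ζ, l0, hl, h0, hR, hU, hS, hC⟩ := hT
  obtain ⟨c0, hc0, he0, -⟩ := hC.ord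
  have hm := hC.pos
  have hm0 : m ≠ 0 := by omega
  have hne : ∏ E, (ζ E / (k E : ℂ)) ^ c0 E ≠ 0 := Finset.prod_ne_zero_iff.2 fun E _ =>
    zpow_ne_zero _ (div_ne_zero (h0 E) (Complex.ofReal_ne_zero.2 (hk E)))
  obtain ⟨t0, ht0⟩ := IsAlgClosed.exists_pow_nat_eq (∏ E, (ζ E / (k E : ℂ)) ^ c0 E)
    (by omega : 0 < m)
  have t0ne : t0 ≠ 0 := by
    rintro rfl
    rw [zero_pow hm0] at ht0
    exact hne ht0.symm
  have hsol : ∀ z : Polynomial.nthRootsFinset m (1 : ℂ), ∃ y : Λ → ℂ, y l0 = t0 * z.1 ∧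
      FD vec ex h k w y := by
    intro z
    have hz : z.1 ^ m = 1 := (Polynomial.mem_nthRootsFinset (by omega) _).1 z.2
    refine TlC_sol hk hg hl h0 hR hU hS hC hc0 he0 ?_
    rw [mul_pow, ht0, hz, mul_one]
  choose y hy1 hy2 using hsol
  have hinj : Function.Injective y := by
    intro z z' hzz
    have h1 : t0 * z.1 = t0 * z'.1 := by rw [← hy1, ← hy1, hzz]
    exact Subtype.ext (mul_left_cancel₀ t0ne h1)
  refine ⟨Finset.univ.image y, ?_, ?_⟩
  · rw [Finset.card_image_of_injective _ hinj, Finset.card_univ, Fintype.card_coe,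
      (Complex.isPrimitiveRoot_exp m hm0).card_nthRootsFinset]
  · intro x hx
    obtain ⟨z, -, rfl⟩ := Finset.mem_image.1 hx
    exact hy2 z

end Pool.Agent.MPb0eF
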