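import Pool.Agent.Lib.MP_b0e20b_ag_G.Fz
import Pool.Agent.Lib.MP_b0e20b_ag_N.CRm
import Pool.Agent.Lib.MP_b0e20b_ag_N.CTl
import Pool.Agent.Lib.MP_b0e20b_ag_N.CLow

/-!
# MP_b0e20b_ag, project N: the exact count
-/

set_option autoImplicit false

open scoped BigOperators Topology
open Filter MvPolynomial

namespace Pool.Agent.MPb0eF

open MPb0eA (Pw Wp Mo vM Cf lb hE tup Hx HX)
open MPb0eQ (Sct dS sq PA G Hv blk Kx toC Tensor total IsReal crit realCrit IsGenericNumber)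

/-- The exact number of complex solutions, if the flags are parametrised by the finite set `S`. -/
theorem exact_N {κ : Type} [Fintype κ] [DecidableEq κ] {d : ℕ} {bl : κ → Fin d}
    {h sg : NS bl → ℝ} {r : Fin d → ℝ} (s0 : ∀ S, sg S ≠ 0)
    (hh : ∀ (c : NS bl → ℤ) (e : Fin d → ℤ),
      ∑ S, (c S : ℝ) * h S + ∑ i, (e i : ℝ) * r i = 0 → c = 0 ∧ e = 0) {D : ℕ}
    (hC : CQ D (vF bl) (eF bl) (hF bl h) (moF bl)) {N : ℕ} {P : MvPolynomial (Sct bl) ℂ}
    (hP : P ≠ 0) (hN : ∀ c : Sct bl → ℂ, eval c P ≠ 0 → {x | G bl c x = 0}.encard = N)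
    {ι : Type} (S : Finset ι) (W : ι → Un κ d → ℝ) (μ : ι → ℕ)
    (hT : ∀ c ∈ S, Ty (vF bl) (eF bl) (hF bl h) (moF bl) (W c) (μ c))
    (hinj : ∀ c ∈ S, ∀ c' ∈ S, W c = W c' → c = c')
    (hcls : ∀ w m, Ty (vF bl) (eF bl) (hF bl h) (moF bl) w m → ∃ c ∈ S, W c = w ∧ m ≤ μ c) :
    N = ∑ c ∈ S, μ c := by
  classical
  have hk : ∀ E, kF bl sg E ≠ 0 := by
    rintro (S | E)
    · exact s0 S
    · exact one_ne_zero
  have hg : Gen (hF bl h) (eF bl) := genF fun c hc => (hh c 0 (by simpa using hc)).1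
  refine le_antisymm ?_ ?_
  · -- the upper bound
    obtain ⟨W0, m, hW0, hNm⟩ := many_w s0 hh hC hP hN
    refine hNm.trans ?_
    rcases isEmpty_or_nonempty ι with hι | hι
    · have h0 : W0 = ∅ := Finset.eq_empty_of_forall_notMem fun w hw => by
        obtain ⟨c, -⟩ := hcls w (m w) (hW0 w hw).2
        exact hι.elim c
      rw [h0, Finset.sum_empty]
      exact Nat.zero_le _
    choose! g hg1 hg2 hg3 using fun w (hw : w ∈ W0) => hcls w (m w) (hW0 w hw).2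
    have hgi : Set.InjOn g (W0 : Set (Un κ d → ℝ)) := by
      intro w hw w' hw' he
      rw [← hg2 w hw, ← hg2 w' hw', he]
    calc ∑ w ∈ W0, m w ≤ ∑ w ∈ W0, μ (g w) := Finset.sum_le_sum fun w hw => hg3 w hw
      _ = ∑ c ∈ W0.image g, μ c := (Finset.sum_image hgi).symm
      _ ≤ ∑ c ∈ S, μ c := Finset.sum_le_sum_of_subset (by
        intro c hc
        obtain ⟨w, hw, rfl⟩ := Finset.mem_image.1 hc
        exact hg1 w hw)
  · -- the lower bound
    choose! Y hY1 hY2 using fun c (hc : c ∈ S) => cx_pts (k := kF bl sg) hk hg (hT c hc)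
    obtain ⟨c, T, hTc, hTs⟩ := cx_many (bl := bl) (h := h) (sg := sg) s0
      ((S.sigma Y).image fun p => (W p.1, p.2)) (by
        intro p hp
        obtain ⟨q, hq, rfl⟩ := Finset.mem_image.1 hp
        obtain ⟨hq1, hq2⟩ := Finset.mem_sigma.1 hq
        exact hY2 _ hq1 _ hq2)
    have h1 := lowerC bl P hP hN c T hTs
    rw [hTc, Finset.card_image_of_injOn, Finset.card_sigma] at h1
    · rw [Finset.sum_congr rfl hY1] at h1
      exact h1
    · rintro ⟨a, b⟩ hab ⟨a', b'⟩ hab' he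
      have ha := (Finset.mem_sigma.1 hab).1
      have ha' := (Finset.mem_sigma.1 hab').1
      simp only [Prod.mk.injEq] at he
      have h2 := hinj a ha a' ha' he.1
      subst h2
      rw [he.2]

/-- A lower bound for the number of the real solutions. -/
theorem exact_K {κ : Type} [Fintype κ] [DecidableEq κ] {d : ℕ} {bl : κ → Fin d}
    {h sg : NS bl → ℝ} {r : Fin d → ℝ} (s0 : ∀ S, sg S ≠ 0)
    (hh : ∀ (c : NS bl → ℤ) (e : Fin d → ℤ),
      ∑ S, (c S : ℝ) * h S + ∑ i, (e i : ℝ) * r i = 0 → c = 0 ∧ e = 0) {K : ℕ}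
    (hK : ∀ (c : Sct bl → ℝ) (S : Finset (κ → ℝ)),
      (∀ x ∈ S, G bl c x = 0 ∧ ∀ v, Hv bl c x v = 0 → v = 0) → S.card ≤ K)
    {ι : Type} (S : Finset ι) (W : ι → Un κ d → ℝ) (μ : ι → ℕ)
    (hT : ∀ c ∈ S, Ty (vF bl) (eF bl) (hF bl h) (moF bl) (W c) (μ c))
    (hinj : ∀ c ∈ S, ∀ c' ∈ S, W c = W c' → c = c') : S.card ≤ K := by
  classical
  have h1 := count (sg := sg) s0 hh hK (S.image W) (by
    intro w hw
    obtain ⟨c, hc, rfl⟩ := Finset.mem_image.1 hw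
    exact ⟨μ c, hT c hc⟩)
  rwa [Finset.card_image_of_injOn fun c hc c' hc' he => hinj c hc c' hc' he] at h1

/-- The flags are parametrised by the cells. -/
theorem cells_par {d : ℕ} {n : Fin d → ℕ} {hh : (Fin d → ℕ) → ℝ}
    (hex : ∀ c, IsCel n c → ∃ w, Ty (vF (blk n)) (eF (blk n)) (hE n hh) (moF (blk n)) w (mu c) ∧
      Tp n hh w c)
    (hcl : ∀ w m, Ty (vF (blk n)) (eF (blk n)) (hE n hh) (moF (blk n)) w m →
      ∃ c, IsCel n c ∧ Tp n hh w c ∧ m ≤ mu c)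
    (hun : ∀ w w' m m' c, IsCel n c → Ty (vF (blk n)) (eF (blk n)) (hE n hh) (moF (blk n)) w m →
      Ty (vF (blk n)) (eF (blk n)) (hE n hh) (moF (blk n)) w' m' → Tp n hh w c → Tp n hh w' c →
      w = w') :
    ∃ W : Cel d → Un (Kx n) d → ℝ,
      (∀ c ∈ cells n, Ty (vF (blk n)) (eF (blk n)) (hE n hh) (moF (blk n)) (W c) (mu c)) ∧
      (∀ c ∈ cells n, ∀ c' ∈ cells n, W c = W c' → c = c') ∧
      ∀ w m, Ty (vF (blk n)) (eF (blk n)) (hE n hh) (moF (blk n)) w m →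
        ∃ c ∈ cells n, W c = w ∧ m ≤ mu c := by
  classical
  have hex' : ∀ c : Cel d, ∃ w : Un (Kx n) d → ℝ, IsCel n c →
      Ty (vF (blk n)) (eF (blk n)) (hE n hh) (moF (blk n)) w (mu c) ∧ Tp n hh w c := by
    intro c
    by_cases hc : IsCel n c
    · obtain ⟨w, hw⟩ := hex c hc
      exact ⟨w, fun _ => hw⟩
    · exact ⟨0, fun h => absurd h hc⟩
  choose W hW using hex'
  have htp : ∀ w c c', IsCel n c → IsCel n c' → Tp n hh w c → Tp n hh w c' → c = c' := by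
    rintro w c c' hc hc' ⟨V, h1, h2⟩ ⟨V', h1', h2'⟩
    have hV : V = V' := by
      obtain ⟨T, hT⟩ := hc.ne
      obtain ⟨T', hT'⟩ := hc'.ne
      rw [← h2, Cf, Finset.mem_filter] at hT
      rw [← h2', Cf, Finset.mem_filter] at hT'
      have e1 := h1' T hT.1
      have e2 := h1 T' hT'.1
      rw [hT.2] at e1
      rw [hT'.2] at e2
      exact le_antisymm e1 e2
    subst hV
    exact cel_inj hc hc' (h2.symm.trans h2') hc.ne
  refine ⟨W, ?_, ?_, ?_⟩
  · intro c hc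
    exact (hW c (mem_cells.1 hc)).1
  · intro c hc c' hc' h
    have h1 := (hW c (mem_cells.1 hc)).2
    have h2 := (hW c' (mem_cells.1 hc')).2
    rw [h] at h1
    exact htp _ c c' (mem_cells.1 hc) (mem_cells.1 hc') h1 h2
  · intro w m hT
    obtain ⟨c, hc, hcw, hm⟩ := hcl w m hT
    have h1 := hW c hc
    exact ⟨c, mem_cells.2 hc, hun _ _ _ _ c hc h1.1 hT h1.2 hcw, hm⟩

end Pool.Agent.MPb0eF
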