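import Pool.Agent.Lib.MP_b0e20b_ag_N.Ex
import Pool.Agent.Lib.MP_b0e20b_ag_A.Cls
import Pool.Agent.Lib.MP_b0e20b_ag_X.Hex
import Pool.Agent.Lib.MP_b0e20b_ag_C.FDc
import Pool.Agent.Lib.MP_b0e20b_ag_Q.E2

/-!
# MP_b0e20b_ag, project N: the generic number and the attained numbers
-/

set_option autoImplicit false

open scoped BigOperators Topology
open Filter MvPolynomial

namespace Pool.Agent.MPb0eF

open MPb0eA (tup)
open MPb0eQ (Sct G Hv blk Kx toC Tensor total IsReal crit realCrit IsGenericNumber)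
open MPb0eC (Mac NN KK Ne)

/-- The generic number of critical points is `NN Dc n`. -/
theorem number_N {d : ℕ} (hd : 1 ≤ d) (n : Fin d → ℕ) (hn : ∀ i, 1 ≤ n i) :
    IsGenericNumber n (NN Dc n) := by
  have hd0 : 0 < d := hd
  obtain ⟨hh, r, c, H, h1, h2, hind⟩ := MPb0eA.exists_HX n
  have hG := gen_hE hind
  obtain ⟨W, hW1, hW2, hW3⟩ := cells_par (MPb0eA.hex hd0 hn h2 hG) (hcl hd0 hG (clsH h1 hn hd0))
    (hun (clsH h1 hn hd0))
  obtain ⟨N, P, hP, hN⟩ := MPb0eQ.gen_exists (blk n)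
  have hN' : ∀ c : Sct (blk n) → ℂ, eval c P ≠ 0 → {x | G (blk n) c x = 0}.encard = N :=
    fun c hc => (hN c hc).1
  have e1 := exact_N (bl := blk n) (h := fun S => hh (tup S)) (sg := fun _ => 1)
    (r := r) (fun _ => one_ne_zero) hind (cq h1 hn hd0 hG) hP hN' (cells n) W mu hW1 hW2 hW3
  rw [sum_mu] at e1
  subst e1
  exact MPb0eQ.generic_of P hP hN'

/-- All odd numbers up to `KK Dc n + 1` are numbers of real critical points. -/
theorem number_K {d : ℕ} (hd : 3 ≤ d) (n : Fin d → ℕ) (hn : ∀ i, 1 ≤ n i) (k : ℕ) (hk1 : Odd k)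
    (hk2 : k ≤ KK Dc n + 1) : ∃ T : Tensor n, total T = 1 ∧ IsReal T ∧
      (crit T).encard = (NN Dc n : ℕ) ∧ (realCrit T).encard = k := by
  have hd0 : 0 < d := by omega
  obtain ⟨hh, r, c, H, h1, h2, hind⟩ := MPb0eA.exists_HX n
  have hG := gen_hE hind
  obtain ⟨W, hW1, hW2, hW3⟩ := cells_par (MPb0eA.hex hd0 hn h2 hG) (hcl hd0 hG (clsH h1 hn hd0))
    (hun (clsH h1 hn hd0))
  obtain ⟨N, K, P, hP, hN, hNo, hKo, hKN, hk, hlow⟩ :=
    MPb0eQ.coords (blk n) hd (fun i => ⟨⟨i, ⟨0, hn i⟩⟩, rfl⟩)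
  have e1 := exact_N (bl := blk n) (h := fun S => hh (tup S)) (sg := fun _ => 1)
    (r := r) (fun _ => one_ne_zero) hind (cq h1 hn hd0 hG) hP hN (cells n) W mu hW1 hW2 hW3
  have e2 := exact_K (bl := blk n) (h := fun S => hh (tup S)) (sg := fun _ => 1)
    (r := r) (fun _ => one_ne_zero) hind hlow (cells n) W mu hW1 hW2
  rw [sum_mu] at e1
  rw [card_cells] at e2
  subst e1
  have hkK : k ≤ K := by
    obtain ⟨a, ha⟩ := hk1
    obtain ⟨b, hb⟩ := hKo
    omega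
  obtain ⟨c, h3, h4⟩ := (hk k).2 ⟨hk1, hkK⟩
  classical
  set c' : Sct (blk n) → ℝ := fun s => if s.1 = ∅ then 1 else c s with hc'
  have e1 : ∀ x, G (blk n) (toC (blk n) c') x = G (blk n) (toC (blk n) c) x := by
    intro x
    apply MPb0eQ.G_empty
    intro s hs
    simp [toC, hc', hs]
  have e2 : ∀ x, G (blk n) c' x = G (blk n) c x := by
    intro x
    apply MPb0eQ.G_empty
    intro s hs
    simp [hc', hs]
  refine ⟨MPb0eQ.ten (toC (blk n) c'), ?_, MPb0eQ.ten_real c', ?_, ?_⟩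
  · rw [← MPb0eQ.par_empty _ (by simp), MPb0eQ.par_ten]
    simp [toC, hc']
  · rw [MPb0eQ.crit_encard, MPb0eQ.par_ten]
    simp only [e1]
    exact h3
  · rw [MPb0eQ.realCrit_encard (MPb0eQ.ten (toC (blk n) c')) c' (MPb0eQ.par_ten _)]
    simp only [e2]
    exact h4

/-- The second statement in terms of the generic number. -/
theorem number_K' {d : ℕ} (hd : 3 ≤ d) (n : Fin d → ℕ) (hn : ∀ i, 1 ≤ n i) (k : ℕ) (hk1 : Odd k)
    (hk2 : k + Ne Dc n ≤ NN Dc n + 2) : ∃ T : Tensor n, total T = 1 ∧ IsReal T ∧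
      (crit T).encard = (NN Dc n : ℕ) ∧ (realCrit T).encard = k := by
  refine number_K hd n hn k hk1 ?_
  have h := MPb0eC.NN_add_one (MPb0eC.mac_Dc d) n
  omega

end Pool.Agent.MPb0eF
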